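import Pool.Agent.PST.StmtsET3

/-!
# Squad PST, block ET, row ETC: the top statement
-/

open scoped BigOperators TensorProduct

noncomputable section

namespace Pool.Agent.PST.ET.H31

open Pool.Agent.PFD.D2 (Cdv FibG)
open Pool.Agent.PSS (RF Cl Per Uni FxR BKR cw)
open Pool.Agent.PSS.S5 (Loi Eqi Pci PcxStmt BptStmt)

/-- ETC -/
theorem etc (pcx : PcxStmt) (bpt : BptStmt) (upr : UprStmt) (klf : KlfStmt) (tau : TauStmt)
    (mlt : MltStmt) (vtr : VtrStmt) (etb : EtbStmt) : EtcStmt := by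
  intro ℓ r _ R F V E H Hs K _ _ _ _ _ _ _ _ _ _ _ _ _ _ _ _ _ _ _ c f φ α lam xx t T x y
    hk hV hel hE hfr hCl hED hR hS
  rcases subsingleton_or_nontrivial V with hs | hn
  · exact vtr ℓ r R F V E H Hs K c f φ α lam xx t T x y hs hCl hED hS
  haveI := hCl.fin
  obtain ⟨n, b, hb, hbo, hb1⟩ := pcx F H
  obtain ⟨lam1, K1, _, x1, y1, hRF, u, hu⟩ := hCl.rt
  have h1 : ∀ i, ∃ (j : H) (m : ℕ) (j' z z' : Hs), (m : F) ≠ 0 ∧ b i - m • j ∈ cmt F H ∧
      j' * j' = j' ∧ f.q j' = j ∧ (∀ a, z * a = a * z) ∧ (∀ a, z' * a = a * z') ∧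
      f.q z * f.q z' = b i ∧ f.q z * b i = f.q z ∧ ∑ k, x k * j' * y k = c.π ^ r • z := by
    intro i
    obtain ⟨j, cc, hj, hbj, hcc, hsum⟩ :=
      bpt ℓ F V E H K1 φ α lam1 x1 y1 u hV hCl hRF hu (b i) (hb i)
    obtain ⟨m, hm, hmj⟩ := mlt ℓ F V E H φ α hV hCl (b i) j (hb i) hj hbj
    have hspan : b i ∈ Submodule.span F {x : H | ∃ s t : H, x = s * j * t} := by
      rw [← hsum]
      refine Submodule.sum_mem _ fun k _ => Submodule.subset_span ⟨x1 k, cc * j * y1 k, ?_⟩
      simp only [mul_assoc]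
    obtain ⟨j', z, z', h1, h2, h3, h4, h5, h6, h7⟩ := etb ℓ r R F V E H Hs K c f φ α lam xx t T x y
      (b i) j hk hV hn hel hE hfr hCl hED hR hS (hb i) hj hbj hspan
    exact ⟨j, m, j', z, z', hm, hmj, h1, h2, h3, h4, h5, h6, h7⟩
  choose j m j' z z' hm hmj hj1 hj2 hz hz' hzz hzb hsum using h1
  have hk1 : ∑ i : Option (Fin n), (Option.elim i (1 : ℤ) fun i => -(m i : ℤ)) •
      f.q (Option.elim i (1 : Hs) j') ∈ cmt F H := by
    rw [Fintype.sum_option]
    simp only [Option.elim, one_smul, map_one]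
    have h2 : (1 : H) + ∑ i, (-(m i : ℤ)) • f.q (j' i) = ∑ i, (b i - m i • j i) := by
      rw [Finset.sum_sub_distrib, hb1, sub_eq_add_neg, ← Finset.sum_neg_distrib]
      congr 1
      refine Finset.sum_congr rfl fun i _ => ?_
      rw [hj2, neg_smul, natCast_zsmul]
    rw [h2]
    exact Submodule.sum_mem _ fun i _ => hmj i
  have hk2 := klf ℓ R F Hs H (Option (Fin n)) c f (fun i => Option.elim i (1 : Hs) j')
    (fun i => Option.elim i (1 : ℤ) fun i => -(m i : ℤ))
    (by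
      rintro (_ | i)
      · exact mul_one 1
      · exact hj1 i) hk1
  rw [Fintype.sum_option] at hk2
  simp only [Option.elim, one_smul] at hk2
  obtain ⟨-, -, htau⟩ := tau R Hs K T x y hS
  have h3 := htau _ hk2
  have h4 : ∑ k, x k * y k = c.π ^ r • ∑ i, m i • z i := by
    have h5 : ∑ k, x k * (1 + ∑ i, (-(m i : ℤ)) • j' i) * y k =
        ∑ k, x k * y k - ∑ i, m i • ∑ k, x k * j' i * y k := by
      simp only [mul_add, add_mul, mul_one, Finset.sum_add_distrib, Finset.mul_sum,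
        Finset.sum_mul, mul_smul_comm, smul_mul_assoc]
      rw [sub_eq_add_neg, ← Finset.sum_neg_distrib, Finset.sum_comm]
      congr 1
      refine Finset.sum_congr rfl fun i _ => ?_
      rw [Finset.smul_sum, ← Finset.sum_neg_distrib]
      refine Finset.sum_congr rfl fun k _ => ?_
      rw [neg_smul, natCast_zsmul]
    rw [h5, sub_eq_zero] at h3
    rw [h3, Finset.smul_sum]
    refine Finset.sum_congr rfl fun i _ => ?_
    rw [hsum, smul_comm]
  have hcz : ∀ a, (∑ i, m i • z i) * a = a * ∑ i, m i • z i := by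
    intro a
    rw [Finset.sum_mul, Finset.mul_sum]
    refine Finset.sum_congr rfl fun i _ => ?_
    rw [smul_mul_assoc, mul_smul_comm, hz]
  refine ⟨∑ i, m i • z i, ?_, hcz, h4⟩
  obtain ⟨Y, hY⟩ := f.surj (∑ i, ((m i : F))⁻¹ • (f.q (z' i) * b i))
  have hmul : f.q (∑ i, m i • z i) * f.q Y = 1 := by
    rw [hY, map_sum, Finset.sum_mul_sum]
    have h6 : ∀ i ∈ Finset.univ, ∑ k, f.q (m i • z i) * ((m k : F)⁻¹ • (f.q (z' k) * b k)) =
        b i := by
      intro i _
      rw [Finset.sum_eq_single i]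
      · rw [map_nsmul, mul_smul_comm, smul_mul_assoc, ← mul_assoc, hzz, (hb i).id,
          ← Nat.cast_smul_eq_nsmul F, smul_smul, inv_mul_cancel₀ (hm i), one_smul]
      · intro k _ hki
        have h7 : f.q (z i) * (f.q (z' k) * b k) = 0 := by
          rw [← hzb i, mul_assoc, ← mul_assoc (b i), (hb i).cen (f.q (z' k)), mul_assoc,
            hbo i k hki.symm, mul_zero, mul_zero]
        rw [map_nsmul, smul_mul_assoc, mul_smul_comm, h7, smul_zero, smul_zero]
      · intro h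
        exact absurd (Finset.mem_univ _) h
    rw [Finset.sum_congr rfl h6, hb1]
  obtain ⟨d, hd⟩ := f.ker ((∑ i, m i • z i) * Y - 1)
    (by rw [map_sub, map_mul, hmul, map_one, sub_self])
  have h5 : (∑ i, m i • z i) * Y = 1 + c.π • d := by
    rw [← hd]
    abel
  have h6 : Y * (∑ i, m i • z i) = 1 + c.π • d := by
    rw [← hcz, h5]
  exact upr R F Hs c _ Y d d h5 h6

end Pool.Agent.PST.ET.H31
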